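import Pool.Agent.Helper70.DK.Defs

/-!
# E1: data processing, submodularity, bounds
-/

set_option autoImplicit false

namespace Pool.Agent.Helper70.DK

open Finset

open Classical in
/-- size of the fibre of `f` through `ω` -/
noncomputable def e1_n {Ω α : Type} (S : Finset Ω) (f : Ω → α) (ω : Ω) : ℝ :=
  ((S.filter (fun ω' => f ω' = f ω)).card : ℝ)

theorem e1_ent {Ω α : Type} (S : Finset Ω) (f : Ω → α) :
    ent S f = (∑ ω ∈ S, (Real.log (S.card : ℝ) - Real.log (e1_n S f ω))) / (S.card : ℝ) := rfl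

theorem e1_pos {Ω α : Type} (S : Finset Ω) (f : Ω → α) {ω : Ω} (h : ω ∈ S) : 0 < e1_n S f ω := by
  classical
  unfold e1_n
  have h1 : (S.filter (fun ω' => f ω' = f ω)).Nonempty := ⟨ω, Finset.mem_filter.2 ⟨h, rfl⟩⟩
  exact_mod_cast Finset.card_pos.2 h1

theorem e1_card {Ω α : Type} (S : Finset Ω) (f : Ω → α) (ω : Ω) (A : Finset Ω)
    (hA : ∀ x, x ∈ A ↔ x ∈ S ∧ f x = f ω) : e1_n S f ω = (A.card : ℝ) := by
  classical
  unfold e1_n
  congr 2
  ext x
  rw [Finset.mem_filter, hA]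

theorem e1_sum {Ω α : Type} (S : Finset Ω) (f : Ω → α) (ω : Ω) (c : Ω → ℝ)
    (h1 : ∀ x ∈ S, f x = f ω → c x = 1) (h0 : ∀ x ∈ S, f x ≠ f ω → c x = 0) :
    e1_n S f ω = ∑ x ∈ S, c x := by
  classical
  have h : ∑ x ∈ S, c x = ∑ x ∈ S, if f x = f ω then (1 : ℝ) else 0 := by
    refine Finset.sum_congr rfl fun x hx => ?_
    by_cases hh : f x = f ω
    · rw [if_pos hh, h1 x hx hh]
    · rw [if_neg hh, h0 x hx hh]
  rw [h, Finset.sum_boole]
  refine e1_card S f ω _ fun x => ?_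
  rw [Finset.mem_filter]

theorem e1_mono {Ω α β : Type} (S : Finset Ω) (f : Ω → α) (g : Ω → β)
    (h : ∀ x ∈ S, ∀ y ∈ S, g x = g y → f x = f y) : ent S f ≤ ent S g := by
  classical
  rw [e1_ent, e1_ent]
  refine div_le_div_of_nonneg_right (Finset.sum_le_sum fun ω hω => ?_) (by positivity)
  have h1 : e1_n S g ω ≤ e1_n S f ω := by
    unfold e1_n
    have h2 : S.filter (fun ω' => g ω' = g ω) ⊆ S.filter (fun ω' => f ω' = f ω) := by
      intro x hx
      rw [Finset.mem_filter] at hx ⊢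
      exact ⟨hx.1, h x hx.1 ω hω hx.2⟩
    exact_mod_cast Finset.card_le_card h2
  have h3 := Real.log_le_log (e1_pos S g hω) h1
  linarith

theorem e1_nonneg {Ω α : Type} (S : Finset Ω) (f : Ω → α) : 0 ≤ ent S f := by
  classical
  rw [e1_ent]
  refine div_nonneg (Finset.sum_nonneg fun ω hω => ?_) (by positivity)
  have h1 : e1_n S f ω ≤ (S.card : ℝ) := by
    unfold e1_n
    exact_mod_cast Finset.card_le_card (Finset.filter_subset _ _)
  have h3 := Real.log_le_log (e1_pos S f hω) h1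
  linarith

open Classical in
/-- indicator of a pair of equalities -/
noncomputable def e1_i {Ω α γ : Type} (f : Ω → α) (h : Ω → γ) (x ω : Ω) : ℝ :=
  if f x = f ω ∧ h x = h ω then 1 else 0

theorem e1_i1 {Ω α γ : Type} {f : Ω → α} {h : Ω → γ} {x ω : Ω} (hh : f x = f ω ∧ h x = h ω) :
    e1_i f h x ω = 1 := by
  unfold e1_i
  rw [if_pos hh]

theorem e1_i0 {Ω α γ : Type} {f : Ω → α} {h : Ω → γ} {x ω : Ω} (hh : ¬ (f x = f ω ∧ h x = h ω)) :
    e1_i f h x ω = 0 := by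
  unfold e1_i
  rw [if_neg hh]

theorem e1_in {Ω α γ : Type} (S : Finset Ω) (f : Ω → α) (h : Ω → γ) (ω : Ω) :
    e1_n S (fun ω => (f ω, h ω)) ω = ∑ x ∈ S, e1_i f h x ω := by
  refine e1_sum S _ ω _ (fun x _ hh => ?_) (fun x _ hh => ?_)
  · simp only [Prod.mk.injEq] at hh
    exact e1_i1 hh
  · simp only [ne_eq, Prod.mk.injEq] at hh
    exact e1_i0 hh

open Classical in
theorem e1_inner {Ω α β γ : Type} (S : Finset Ω) (f : Ω → α) (g : Ω → β) (h : Ω → γ) (x y : Ω)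
    (hx : x ∈ S) :
    ∑ ω ∈ S, e1_i f h x ω * e1_i g h y ω
      / (e1_n S h ω * e1_n S (fun ω => (f ω, g ω, h ω)) ω)
      ≤ if h y = h x then 1 / e1_n S h x else 0 := by
  set A := S.filter (fun ω => (f x = f ω ∧ h x = h ω) ∧ (g y = g ω ∧ h y = h ω)) with hA
  have h1 : ∑ ω ∈ S, e1_i f h x ω * e1_i g h y ω
      / (e1_n S h ω * e1_n S (fun ω => (f ω, g ω, h ω)) ω)
      = ∑ ω ∈ A, 1 / (e1_n S h ω * e1_n S (fun ω => (f ω, g ω, h ω)) ω) := by
    rw [hA, Finset.sum_filter]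
    refine Finset.sum_congr rfl fun ω _ => ?_
    by_cases c1 : f x = f ω ∧ h x = h ω
    · by_cases c2 : g y = g ω ∧ h y = h ω
      · rw [e1_i1 c1, e1_i1 c2, if_pos ⟨c1, c2⟩, one_mul]
      · rw [e1_i0 c2, if_neg (fun hh => c2 hh.2), mul_zero, zero_div]
    · rw [e1_i0 c1, if_neg (fun hh => c1 hh.1), zero_mul, zero_div]
  rw [h1]
  have h2 : ∀ ω ∈ A, 1 / (e1_n S h ω * e1_n S (fun ω => (f ω, g ω, h ω)) ω)
      = 1 / (e1_n S h x * (A.card : ℝ)) := by
    intro ω hω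
    rw [hA, Finset.mem_filter] at hω
    obtain ⟨w0, w1, w2⟩ := hω
    have e1 : e1_n S h ω = e1_n S h x := by
      unfold e1_n
      rw [w1.2]
    have e2 : e1_n S (fun ω => (f ω, g ω, h ω)) ω = (A.card : ℝ) := by
      refine e1_card S _ ω A fun ω' => ?_
      rw [hA, Finset.mem_filter]
      simp only [Prod.mk.injEq]
      constructor
      · rintro ⟨a0, ⟨a1, a2⟩, a3, a4⟩
        exact ⟨a0, a1.symm.trans w1.1, a3.symm.trans w2.1, a2.symm.trans w1.2⟩
      · rintro ⟨a0, a1, a2, a3⟩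
        rw [a1, a2, a3]
        exact ⟨a0, w1, w2⟩
    rw [e1, e2]
  rw [Finset.sum_congr rfl h2, Finset.sum_const, nsmul_eq_mul]
  rcases A.eq_empty_or_nonempty with hE | ⟨ω, hω⟩
  · rw [hE]
    simp only [Finset.card_empty, Nat.cast_zero, zero_mul]
    split_ifs
    · have := e1_pos S h hx
      positivity
    · exact le_rfl
  · have hc : (0 : ℝ) < A.card := by exact_mod_cast Finset.card_pos.2 ⟨ω, hω⟩
    have hp := e1_pos S h hx
    rw [hA, Finset.mem_filter] at hω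
    obtain ⟨w0, w1, w2⟩ := hω
    rw [if_pos (w2.2.trans w1.2.symm)]
    refine le_of_eq ?_
    field_simp

theorem e1_key {Ω α β γ : Type} (S : Finset Ω) (f : Ω → α) (g : Ω → β) (h : Ω → γ) :
    ∑ ω ∈ S, e1_n S (fun ω => (f ω, h ω)) ω * e1_n S (fun ω => (g ω, h ω)) ω
      / (e1_n S h ω * e1_n S (fun ω => (f ω, g ω, h ω)) ω) ≤ (S.card : ℝ) := by
  classical
  have h1 : ∀ ω ∈ S, e1_n S (fun ω => (f ω, h ω)) ω * e1_n S (fun ω => (g ω, h ω)) ω
      / (e1_n S h ω * e1_n S (fun ω => (f ω, g ω, h ω)) ω)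
      = ∑ x ∈ S, ∑ y ∈ S, e1_i f h x ω * e1_i g h y ω
      / (e1_n S h ω * e1_n S (fun ω => (f ω, g ω, h ω)) ω) := by
    intro ω _
    rw [e1_in S f h ω, e1_in S g h ω, Finset.sum_mul_sum, Finset.sum_div]
    refine Finset.sum_congr rfl fun x _ => ?_
    rw [Finset.sum_div]
  rw [Finset.sum_congr rfl h1, Finset.sum_comm]
  have h2 : ∀ x ∈ S, ∑ ω ∈ S, ∑ y ∈ S, e1_i f h x ω * e1_i g h y ω
      / (e1_n S h ω * e1_n S (fun ω => (f ω, g ω, h ω)) ω) ≤ 1 := by
    intro x hx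
    rw [Finset.sum_comm]
    refine (Finset.sum_le_sum fun y _ => e1_inner S f g h x y hx).trans ?_
    have h3 : ∑ y ∈ S, (if h y = h x then 1 / e1_n S h x else 0)
        = (∑ y ∈ S, if h y = h x then (1 : ℝ) else 0) * (1 / e1_n S h x) := by
      rw [Finset.sum_mul]
      refine Finset.sum_congr rfl fun y _ => ?_
      split_ifs <;> simp
    rw [h3, ← e1_sum S h x (fun y => if h y = h x then (1 : ℝ) else 0)
      (fun y _ hh => if_pos hh) (fun y _ hh => if_neg hh)]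
    have hp := e1_pos S h hx
    refine le_of_eq ?_
    field_simp
  refine (Finset.sum_le_sum h2).trans ?_
  simp

theorem e1_sm {Ω α β γ : Type} (S : Finset Ω) (f : Ω → α) (g : Ω → β) (h : Ω → γ) :
    ent S (fun ω => (f ω, g ω, h ω)) + ent S h ≤ ent S (fun ω => (f ω, h ω))
      + ent S (fun ω => (g ω, h ω)) := by
  rw [e1_ent, e1_ent, e1_ent, e1_ent, ← add_div, ← add_div]
  refine div_le_div_of_nonneg_right ?_ (by positivity)
  rw [← Finset.sum_add_distrib, ← Finset.sum_add_distrib, ← sub_nonpos, ← Finset.sum_sub_distrib]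
  have h1 : ∀ ω ∈ S, (Real.log (S.card : ℝ) - Real.log (e1_n S (fun ω => (f ω, g ω, h ω)) ω)
      + (Real.log (S.card : ℝ) - Real.log (e1_n S h ω)))
      - (Real.log (S.card : ℝ) - Real.log (e1_n S (fun ω => (f ω, h ω)) ω)
      + (Real.log (S.card : ℝ) - Real.log (e1_n S (fun ω => (g ω, h ω)) ω)))
      ≤ e1_n S (fun ω => (f ω, h ω)) ω * e1_n S (fun ω => (g ω, h ω)) ω
      / (e1_n S h ω * e1_n S (fun ω => (f ω, g ω, h ω)) ω) - 1 := by
    intro ω hω
    have p1 := e1_pos S (fun ω => (f ω, h ω)) hω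
    have p2 := e1_pos S (fun ω => (g ω, h ω)) hω
    have p3 := e1_pos S h hω
    have p4 := e1_pos S (fun ω => (f ω, g ω, h ω)) hω
    have q1 := Real.log_le_sub_one_of_pos (div_pos (mul_pos p1 p2) (mul_pos p3 p4))
    rw [Real.log_div (mul_pos p1 p2).ne' (mul_pos p3 p4).ne', Real.log_mul p1.ne' p2.ne',
      Real.log_mul p3.ne' p4.ne'] at q1
    linarith
  refine (Finset.sum_le_sum h1).trans ?_
  rw [Finset.sum_sub_distrib, Finset.sum_const, nsmul_eq_mul, mul_one]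
  linarith [e1_key S f g h]

/-- E1: data processing, submodularity, bounds -/
theorem st_E1 : ST_E1 := by
  refine ⟨fun Ω α β S f g h => e1_mono S f g h, fun Ω α β γ S f g h => e1_sm S f g h,
    fun Ω α S f => e1_nonneg S f, fun Ω α β S f g => ?_⟩
  have h1 := e1_sm S f g (fun _ => ())
  have h2 := e1_nonneg S (fun _ : Ω => ())
  have h3 := e1_mono S (fun ω => (f ω, g ω)) (fun ω => (f ω, g ω, ())) (fun x _ y _ hh => by
    simp only [Prod.mk.injEq] at hh ⊢
    exact ⟨hh.1, hh.2.1⟩)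
  have h4 := e1_mono S (fun ω => (f ω, ())) f (fun x _ y _ hh => by
    simp only [hh])
  have h5 := e1_mono S (fun ω => (g ω, ())) g (fun x _ y _ hh => by
    simp only [hh])
  linarith

end Pool.Agent.Helper70.DK
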