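import Pool.Agent.Helper70.DK.Defs

/-!
# PB: concatenation and size of the points of a window
-/

set_option autoImplicit false

namespace Pool.Agent.Helper70.DK

open Finset

theorem pb_geom (B n : ℕ) (hB : 2 ≤ B) : ∑ q : Fin n, (B : ℝ) ^ (n - 1 - (q : ℕ)) ≤ (B : ℝ) ^ n := by
  rw [Fin.sum_univ_eq_sum_range (fun q => (B : ℝ) ^ (n - 1 - q)) n,
    Finset.sum_range_reflect (fun j => (B : ℝ) ^ j) n]
  have hB' : (2 : ℝ) ≤ B := by exact_mod_cast hB
  induction n with
  | zero => simp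
  | succ n ih =>
    rw [Finset.sum_range_succ, pow_succ]
    have h1 : (0 : ℝ) ≤ (B : ℝ) ^ n := by positivity
    have h2 := mul_le_mul_of_nonneg_left hB' h1
    linarith

theorem pb_geomZ (B n : ℕ) :
    ∑ q : Fin n, (B : ℤ) ^ (n - 1 - (q : ℕ)) * ((B : ℤ) - 1) = (B : ℤ) ^ n - 1 := by
  rw [← Finset.sum_mul, Fin.sum_univ_eq_sum_range (fun q => (B : ℤ) ^ (n - 1 - q)) n,
    Finset.sum_range_reflect (fun j => (B : ℤ) ^ j) n]
  exact geom_sum_mul _ _

theorem pb_D_succ {m : ℕ} {ι : Type} (σ : Sys m ι) (B i n : ℕ) (u : Fin (n + 1) → ι) (c : Fin m) :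
    σ.D B i (n + 1) u c = (B : ℤ) * σ.D B i n (fun q => u q.castSucc) c
      + σ.dg (i + n) (u (Fin.last n)) c := by
  unfold Sys.D
  rw [Fin.sum_univ_castSucc, Finset.mul_sum]
  congr 1
  · refine Finset.sum_congr rfl fun q _ => ?_
    have h1 : n + 1 - 1 - ((q.castSucc : Fin (n + 1)) : ℕ) = (n - 1 - (q : ℕ)) + 1 := by
      rw [Fin.val_castSucc]
      omega
    rw [h1, pow_succ, Fin.val_castSucc]
    ring
  · have h1 : n + 1 - 1 - ((Fin.last n : Fin (n + 1)) : ℕ) = 0 := by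
      rw [Fin.val_last]
      omega
    rw [h1, Fin.val_last]
    ring

theorem pb_inj {m : ℕ} {ι : Type} (σ : Sys m ι) (B : ℕ) (R : ℝ) (hσ : σ.Ok B R) (i n : ℕ) :
    Function.Injective (σ.D B i n) := by
  induction n with
  | zero =>
    intro u v _
    funext q
    exact q.elim0
  | succ n ih =>
    intro u v h
    have key : ∀ c, σ.dg (i + n) (u (Fin.last n)) c = σ.dg (i + n) (v (Fin.last n)) c ∧
        σ.D B i n (fun q => u q.castSucc) c = σ.D B i n (fun q => v q.castSucc) c := by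
      intro c
      have h1 := congrFun h c
      rw [pb_D_succ, pb_D_succ] at h1
      obtain ⟨a1, a2⟩ := hσ.1 (i + n) (u (Fin.last n)) c
      obtain ⟨b1, b2⟩ := hσ.1 (i + n) (v (Fin.last n)) c
      have hB : (0 : ℤ) < B := by linarith
      have e1 : ((B : ℤ) * σ.D B i n (fun q => u q.castSucc) c
          + σ.dg (i + n) (u (Fin.last n)) c) / B = σ.D B i n (fun q => u q.castSucc) c := by
        rw [add_comm, Int.add_mul_ediv_left _ _ hB.ne', Int.ediv_eq_zero_of_lt a1 a2, zero_add]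
      have e2 : ((B : ℤ) * σ.D B i n (fun q => v q.castSucc) c
          + σ.dg (i + n) (v (Fin.last n)) c) / B = σ.D B i n (fun q => v q.castSucc) c := by
        rw [add_comm, Int.add_mul_ediv_left _ _ hB.ne', Int.ediv_eq_zero_of_lt b1 b2, zero_add]
      rw [h1, e2] at e1
      refine ⟨?_, e1.symm⟩
      rw [e1] at h1
      linarith
    have k1 : u (Fin.last n) = v (Fin.last n) := hσ.2.1 (i + n) (funext fun c => (key c).1)
    have k2 : (fun q : Fin n => u q.castSucc) = fun q => v q.castSucc :=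
      ih (funext fun c => (key c).2)
    funext q
    refine Fin.lastCases k1 (fun q => congrFun k2 q) q

/-- PB: concatenation and size of the points of a window -/
theorem st_PB : ST_PB := by
  intro m B R t ι σ hB hR ht0 ht1 hσ
  have hB' : (2 : ℝ) ≤ B := by exact_mod_cast hB
  refine ⟨fun i n1 n2 u v c => ?_, fun i n u c => ?_, fun i n u c => ?_, fun i n => pb_inj σ B R hσ i n,
    fun i n u v c => ?_⟩
  · unfold Sys.P
    rw [Fin.sum_univ_add, Finset.mul_sum]
    congr 1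
    · refine Finset.sum_congr rfl fun q _ => ?_
      have h1 : n1 + n2 - 1 - ((Fin.castAdd n2 q : Fin (n1 + n2)) : ℕ) = n2 + (n1 - 1 - (q : ℕ)) := by
        rw [Fin.val_castAdd]
        omega
      rw [Fin.append_left, h1, Fin.val_castAdd, ← mul_assoc, ← pow_add]
    · refine Finset.sum_congr rfl fun q _ => ?_
      have h1 : n1 + n2 - 1 - ((Fin.natAdd n1 q : Fin (n1 + n2)) : ℕ) = n2 - 1 - (q : ℕ) := by
        rw [Fin.val_natAdd]
        omega
      rw [Fin.append_right, h1, Fin.val_natAdd, add_assoc i n1]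
  · unfold Sys.P
    have h1 : ∀ q : Fin n, |(B : ℝ) ^ (n - 1 - (q : ℕ)) *
        (σ.ph (i + q) (u q) c + t * (σ.dg (i + q) (u q) c : ℝ))|
        ≤ (B : ℝ) ^ (n - 1 - (q : ℕ)) * (R + B) := by
      intro q
      have h0 : (0 : ℝ) ≤ (B : ℝ) ^ (n - 1 - (q : ℕ)) := by positivity
      rw [abs_mul, abs_of_nonneg h0]
      refine mul_le_mul_of_nonneg_left ?_ h0
      refine (abs_add_le _ _).trans (add_le_add (hσ.2.2 _ _ _) ?_)
      obtain ⟨a1, a2⟩ := hσ.1 (i + q) (u q) c
      have a1' : (0 : ℝ) ≤ (σ.dg (i + q) (u q) c : ℝ) := by exact_mod_cast a1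
      have a2' : (σ.dg (i + q) (u q) c : ℝ) ≤ B := by exact_mod_cast a2.le
      rw [abs_of_nonneg (mul_nonneg ht0 a1')]
      exact (mul_le_mul ht1 a2' a1' zero_le_one).trans (by rw [one_mul])
    refine (Finset.abs_sum_le_sum_abs _ _).trans ((Finset.sum_le_sum fun q _ => h1 q).trans ?_)
    rw [← Finset.sum_mul, mul_comm]
    exact mul_le_mul_of_nonneg_left (pb_geom B n hB) (by positivity)
  · unfold Sys.D
    constructor
    · exact Finset.sum_nonneg fun q _ => mul_nonneg (by positivity) (hσ.1 _ _ _).1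
    · have h1 : ∑ q : Fin n, (B : ℤ) ^ (n - 1 - (q : ℕ)) * σ.dg (i + q) (u q) c
          ≤ ∑ q : Fin n, (B : ℤ) ^ (n - 1 - (q : ℕ)) * ((B : ℤ) - 1) :=
        Finset.sum_le_sum fun q _ => mul_le_mul_of_nonneg_left
          (by have := (hσ.1 (i + q) (u q) c).2; linarith) (by positivity)
      rw [pb_geomZ] at h1
      linarith
  · refine ⟨∑ q : Fin n, (B : ℝ) ^ (n - 1 - (q : ℕ)) *
      (σ.ph (i + q) (u q) c - σ.ph (i + q) (v q) c), ?_, fun t' => ?_⟩
    · have h1 : ∀ q : Fin n, |(B : ℝ) ^ (n - 1 - (q : ℕ)) *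
          (σ.ph (i + q) (u q) c - σ.ph (i + q) (v q) c)| ≤ (B : ℝ) ^ (n - 1 - (q : ℕ)) * (2 * R) := by
        intro q
        have h0 : (0 : ℝ) ≤ (B : ℝ) ^ (n - 1 - (q : ℕ)) := by positivity
        rw [abs_mul, abs_of_nonneg h0]
        refine mul_le_mul_of_nonneg_left ?_ h0
        have g1 := abs_sub (σ.ph (i + q) (u q) c) (σ.ph (i + q) (v q) c)
        linarith [hσ.2.2 (i + q) (u q) c, hσ.2.2 (i + q) (v q) c]
      refine (Finset.abs_sum_le_sum_abs _ _).trans ((Finset.sum_le_sum fun q _ => h1 q).trans ?_)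
      rw [← Finset.sum_mul, mul_comm]
      exact mul_le_mul_of_nonneg_left (pb_geom B n hB) (by positivity)
    · unfold Sys.P Sys.D
      rw [← Finset.sum_sub_distrib]
      push_cast
      rw [← Finset.sum_sub_distrib, Finset.mul_sum, ← Finset.sum_add_distrib]
      refine Finset.sum_congr rfl fun q _ => ?_
      ring

end Pool.Agent.Helper70.DK
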